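import Pool.Agent.H52.PR.Led2

/-!
# Every class against the class 1, all moduli (MP_2936c6_nt)

For every modulus `b` and every reduced class `a ≠ 1`, without any hypothesis: for every `C` the class `a` is ahead of the class `1` by more than
`C √n/log n` at arbitrarily large `n`; and for every `C` the class `1` is ahead of the class `a` by more than `C √n/log n` at arbitrarily large `n`, unless
some `L(s, χ)`, `χ(a) ≠ 1`, has a real zero `β > 1/2` to the right of which no `L(s, ψ)`, `ψ(a) ≠ 1`, vanishes.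
-/

set_option autoImplicit false

namespace Pool.Agent.Results.MP_2936c6_nt.AgainstClassOne

/-- the number of primes `p < n` with `p ≡ a mod b` -/
def primeCount (n a b : ℕ) : ℕ := ((Finset.range n).filter (fun p => p.Prime ∧ p % b = a % b)).card

theorem result (b a : ℕ) [NeZero b] (ha : a.Coprime b) (h1 : a % b ≠ 1 % b) :
    (∀ (C : ℝ) (N : ℕ), ∃ n : ℕ, N < n ∧
      (primeCount n 1 b : ℝ) + C * (Real.sqrt n / Real.log n) < (primeCount n a b : ℝ)) ∧
    ((∀ (C : ℝ) (N : ℕ), ∃ n : ℕ, N < n ∧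
      (primeCount n a b : ℝ) + C * (Real.sqrt n / Real.log n) < (primeCount n 1 b : ℝ)) ∨
    ∃ β : ℝ, 1 / 2 < β ∧ β < 1 ∧
      (∃ χ : DirichletCharacter ℂ b, χ (a : ZMod b) ≠ 1 ∧ DirichletCharacter.LFunction χ (β : ℂ) = 0) ∧
      ∀ ψ : DirichletCharacter ℂ b, ψ (a : ZMod b) ≠ 1 → ∀ s : ℂ, β < s.re → DirichletCharacter.LFunction ψ s ≠ 0) :=
  ⟨fun C N => Pool.Agent.H52.PR.beat_one2 b a (Nat.pos_of_ne_zero (NeZero.ne b)) ha h1 C N,
    Pool.Agent.H52.PR.one_beat2 b a ha h1⟩

end Pool.Agent.Results.MP_2936c6_nt.AgainstClassOne
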