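import Pool.Agent.H52.PR.Led2

/-!
# A class against its inverse, all moduli (MP_2936c6_nt)

For every modulus `b` and all `a`, `a'` with `a a' = 1`, `a² ≠ 1` modulo `b`, without any hypothesis on zeros: there is a `c > 0` such that
`π(n; a, b) > π(n; a', b) + c √n/log n` at arbitrarily large `n` (and so, exchanging `a` and `a'`, both signs).
-/

set_option autoImplicit false

namespace Pool.Agent.Results.MP_2936c6_nt.InverseClasses

/-- the number of primes `p < n` with `p ≡ a mod b` -/
def primeCount (n a b : ℕ) : ℕ := ((Finset.range n).filter (fun p => p.Prime ∧ p % b = a % b)).card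

theorem result (b a a' : ℕ) (hb : 0 < b) (haa : (a * a') % b = 1 % b) (h1 : (a * a) % b ≠ 1 % b) :
    ∃ c : ℝ, 0 < c ∧ ∀ N : ℕ, ∃ n : ℕ, N < n ∧
      (primeCount n a' b : ℝ) + c * (Real.sqrt n / Real.log n) < (primeCount n a b : ℝ) :=
  Pool.Agent.H52.PR.beat_inv2 b a a' hb haa h1

end Pool.Agent.Results.MP_2936c6_nt.InverseClasses
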