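import Pool.Agent.H52.PR.Led3

/-!
# Two classes whose quotient is a square (MP_2936c6_nt)

For reduced classes `a` and `a x²`, `x² ≠ 1`, modulo any `b`, without any hypothesis: either, for some `c > 0`, each of the two is ahead of the other by more
than `c √n/log n` at arbitrarily large `n`, or some `L(s, ψ)`, `ψ` a character modulo `b` with `ψ(x)² ≠ 1` (so `ψ` is not real), has a real zero in
`[1/2, 1)`.
-/

set_option autoImplicit false

namespace Pool.Agent.Results.MP_2936c6_nt.SquareQuotients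

/-- the number of primes `p < n` with `p ≡ a mod b` -/
def primeCount (n a b : ℕ) : ℕ := ((Finset.range n).filter (fun p => p.Prime ∧ p % b = a % b)).card

theorem result (b a x : ℕ) [NeZero b] (ha : a.Coprime b) (hx : x.Coprime b) (h1 : (x * x) % b ≠ 1 % b) :
    (∃ c : ℝ, 0 < c ∧ ∀ N : ℕ,
      (∃ n : ℕ, N < n ∧ (primeCount n a b : ℝ) + c * (Real.sqrt n / Real.log n) < (primeCount n (a * (x * x)) b : ℝ)) ∧
      (∃ n : ℕ, N < n ∧ (primeCount n (a * (x * x)) b : ℝ) + c * (Real.sqrt n / Real.log n) < (primeCount n a b : ℝ))) ∨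
    ∃ ψ : DirichletCharacter ℂ b, ψ (x : ZMod b) ^ 2 ≠ 1 ∧
      ∃ β : ℝ, 1 / 2 ≤ β ∧ β < 1 ∧ DirichletCharacter.LFunction ψ (β : ℂ) = 0 :=
  Pool.Agent.H52.PR.sq_both b a x ha hx h1

end Pool.Agent.Results.MP_2936c6_nt.SquareQuotients
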