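import Pool.Agent.H52.PR.Led4

/-!
# Turán's prime race: two classes lead infinitely often, for every modulus without certain real zeros (MP_2936c6_nt)

For every modulus `b > 2`, without any hypothesis: either at least two residue classes strictly lead at arbitrarily large `n`, or `b` does not divide
`24`, one class `a` with `a² = 1`, `a ≠ 1` modulo `b` is never behind from some point on, and then both of the following hold: a real `β > 1/2` is a zero of
some `L(s, χ)` with `χ(a) = -1` and no `L(s, ψ)`, `ψ ≠ 1` a character modulo `b`, has a zero to the right of `β`; and for every reduced `x` with `x² ≠ 1`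
some `L(s, ψ)` with `ψ(x)² ≠ 1` (so `ψ` is not real) has a real zero in `[1/2, 1)`.
-/

set_option autoImplicit false

namespace Pool.Agent.Results.MP_2936c6_nt.TwoLeaders

/-- the number of primes `p < n` with `p ≡ a mod b` -/
def primeCount (n a b : ℕ) : ℕ := ((Finset.range n).filter (fun p => p.Prime ∧ p % b = a % b)).card

/-- the class `a mod b` strictly leads at arbitrarily large `n` -/
def LeadsInfinitelyOften (a b : ℕ) : Prop :=
  ∀ N : ℕ, ∃ n : ℕ, N < n ∧ ∀ a₁ : ℕ, a₁ % b ≠ a % b → primeCount n a₁ b < primeCount n a b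

theorem result (b : ℕ) [NeZero b] (hb : 2 < b) :
    (∃ a c : ℕ, a.Coprime b ∧ c.Coprime b ∧ a % b ≠ c % b ∧ LeadsInfinitelyOften a b ∧ LeadsInfinitelyOften c b) ∨
    (¬ b ∣ 24 ∧ ∃ a : ℕ, a.Coprime b ∧ a % b ≠ 1 ∧ (a * a) % b = 1 ∧
      (∃ N : ℕ, ∀ n : ℕ, N < n → ∀ a₁ : ℕ, primeCount n a₁ b ≤ primeCount n a b) ∧
      (∃ β : ℝ, 1 / 2 < β ∧ β < 1 ∧
        (∃ χ : DirichletCharacter ℂ b, χ (a : ZMod b) = -1 ∧ DirichletCharacter.LFunction χ (β : ℂ) = 0) ∧
        ∀ ψ : DirichletCharacter ℂ b, ψ ≠ 1 → ∀ s : ℂ, β < s.re → DirichletCharacter.LFunction ψ s ≠ 0) ∧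
      (∀ x : ℕ, x.Coprime b → (x * x) % b ≠ 1 → ∃ ψ : DirichletCharacter ℂ b, ψ (x : ZMod b) ^ 2 ≠ 1 ∧
        ∃ β : ℝ, 1 / 2 ≤ β ∧ β < 1 ∧ DirichletCharacter.LFunction ψ (β : ℂ) = 0)) :=
  Pool.Agent.H52.PR.leader4 b hb

end Pool.Agent.Results.MP_2936c6_nt.TwoLeaders
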